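import Mathlib

/-!
# The rational boundary character

MP_fc7159_al, step 3.  From a class which is positive on the closed orbits of one flow and not
positive on those of the other flow one gets an integral character which is not in `Σ¹`, while its
inverse is.
-/

set_option autoImplicit false
set_option linter.unusedSectionVars false

open Multiplicative

namespace Pool.Agent.H11.FB

variable {H : Type*} [Group H]

/-- an integral character as a real one -/
noncomputable def toReal (ψ : H →* Multiplicative ℤ) : H →* Multiplicative ℝ :=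
  (AddMonoidHom.toMultiplicative (Int.castAddHom ℝ)).comp ψ

@[simp]
theorem toAdd_toReal (ψ : H →* Multiplicative ℤ) (h : H) :
    toAdd (toReal ψ h) = ((toAdd (ψ h) : ℤ) : ℝ) := rfl

theorem toReal_inv (ψ : H →* Multiplicative ℤ) : (toReal ψ)⁻¹ = toReal ψ⁻¹ := by
  refine MonoidHom.ext fun h => toAdd.injective ?_
  rw [MonoidHom.inv_apply, toAdd_inv, toAdd_toReal, toAdd_toReal, MonoidHom.inv_apply, toAdd_inv,
    Int.cast_neg]

/-- an integral combination -/
theorem comb_apply (u η : H →* Multiplicative ℤ) (a b : ℤ) (z : H) :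
    toAdd ((u ^ a * (η ^ b)⁻¹) z) = a * toAdd (u z) - b * toAdd (η z) := by
  simp only [MonoidHom.mul_apply, MonoidHom.inv_apply, MonoidHom.zpow_apply, toAdd_mul,
    toAdd_inv, toAdd_zpow, smul_eq_mul]
  ring

/-- The character which leaves the cone. `u` is the height, `η` a homomorphism; `Z₁`, `Z₂` are the
finite sets of closed orbits of the two flows which determine the two components of `Σ¹`. -/
theorem exists_character (Sig : Set (H →* Multiplicative ℝ)) (u η : H →* Multiplicative ℤ)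
    (Z₁ Z₂ : Set H) (hfin : Z₁.Finite) (c : ℤ) (hc : 0 < c) (h : H)
    (hu₁ : ∀ z ∈ Z₁, 0 < toAdd (u z)) (hu₂ : ∀ z ∈ Z₂, toAdd (u z) < 0)
    (hη : ∀ z ∈ Z₂, c * |toAdd (η z)| ≤ -toAdd (u z))
    (hh : toAdd (u h) < c * toAdd (η h))
    (d3 : ∀ v : H →* Multiplicative ℤ, (∀ z ∈ Z₁, 0 ≤ toAdd (v z)) → 0 ≤ toAdd (v h))
    (d2 : ∀ v : H →* Multiplicative ℝ, (∀ z ∈ Z₁, 0 ≤ toAdd (v z)) →
      (∃ z ∈ Z₁, toAdd (v z) = 0) → v ∉ Sig)
    (d1 : ∀ v : H →* Multiplicative ℝ, (∀ z ∈ Z₂, 0 < toAdd (v z)) → v ∈ Sig) :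
    ∃ ψ : H →* Multiplicative ℤ, toReal ψ ∉ Sig ∧ toReal ψ⁻¹ ∈ Sig := by
  -- some closed orbit of the first flow is negative
  have h1 : ∃ z ∈ Z₁, toAdd (u z) < c * toAdd (η z) := by
    by_contra hcon
    push Not at hcon
    have h2 := d3 (u ^ (1 : ℤ) * (η ^ c)⁻¹) fun z hz => by
      have := hcon z hz
      rw [comb_apply]
      linarith
    rw [comb_apply] at h2
    linarith
  obtain ⟨z₁, hz₁, h2⟩ := h1
  have h3 : 0 < toAdd (η z₁) := by
    have h4 : 0 < c * toAdd (η z₁) := (hu₁ z₁ hz₁).trans h2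
    exact pos_of_mul_pos_right h4 hc.le
  -- the first one
  obtain ⟨z₀, hz₀, hmin⟩ := Set.exists_min_image {z ∈ Z₁ | 0 < toAdd (η z)}
    (fun z => ((toAdd (u z) : ℤ) : ℚ) / ((toAdd (η z) : ℤ) : ℚ)) (hfin.subset (Set.sep_subset _ _))
    ⟨z₁, hz₁, h3⟩
  obtain ⟨hz₀, hη₀⟩ := hz₀
  have hmin' : ∀ z ∈ Z₁, 0 < toAdd (η z) →
      toAdd (u z₀) * toAdd (η z) ≤ toAdd (η z₀) * toAdd (u z) := by
    intro z hz hz'
    have h4 := hmin z ⟨hz, hz'⟩
    have a1 : (0 : ℚ) < ((toAdd (η z) : ℤ) : ℚ) := by exact_mod_cast hz'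
    have a2 : (0 : ℚ) < ((toAdd (η z₀) : ℤ) : ℚ) := by exact_mod_cast hη₀
    rw [div_le_div_iff₀ a2 a1] at h4
    have h5 : toAdd (u z₀) * toAdd (η z) ≤ toAdd (u z) * toAdd (η z₀) := by exact_mod_cast h4
    linarith [mul_comm (toAdd (u z)) (toAdd (η z₀))]
  have hlt : toAdd (u z₀) < c * toAdd (η z₀) := by
    have h4 := hmin' z₁ hz₁ h3
    nlinarith
  refine ⟨u ^ (toAdd (η z₀)) * (η ^ (toAdd (u z₀)))⁻¹, ?_, ?_⟩
  · refine d2 _ (fun z hz => ?_) ⟨z₀, hz₀, ?_⟩
    · rw [toAdd_toReal, comb_apply]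
      have h4 : 0 ≤ toAdd (η z₀) * toAdd (u z) - toAdd (u z₀) * toAdd (η z) := by
        rcases lt_or_ge 0 (toAdd (η z)) with h5 | h5
        · linarith [hmin' z hz h5]
        · nlinarith [hu₁ z hz, hu₁ z₀ hz₀]
      exact_mod_cast h4
    · rw [toAdd_toReal, comb_apply, mul_comm, sub_self]
      simp
  · refine d1 _ fun z hz => ?_
    rw [toAdd_toReal, MonoidHom.inv_apply, toAdd_inv, comb_apply]
    have h4 : 0 < -(toAdd (η z₀) * toAdd (u z) - toAdd (u z₀) * toAdd (η z)) := by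
      have b1 := hη z hz
      have b2 := hu₂ z hz
      have b3 := hu₁ z₀ hz₀
      have b4 : -|toAdd (η z)| ≤ toAdd (η z) := neg_abs_le _
      have b5 : 0 ≤ |toAdd (η z)| := abs_nonneg _
      rcases b5.eq_or_lt with b6 | b6
      · have b7 : toAdd (η z) = 0 := abs_eq_zero.1 b6.symm
        rw [b7]
        nlinarith
      · have b7 : toAdd (u z₀) * |toAdd (η z)| < c * toAdd (η z₀) * |toAdd (η z)| :=
          mul_lt_mul_of_pos_right hlt b6
        nlinarith
    exact_mod_cast h4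

end Pool.Agent.H11.FB
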