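import Mathlib

/-!
# Crossing homomorphisms

MP_fc7159_al.  `𝒰` is a family of subsets of a group such that any two elements are separated by
finitely many members only.  `cross 𝒰 x y` is the algebraic number of members which are entered on
the way from `x` to `y`.
-/

set_option autoImplicit false
set_option linter.unusedSectionVars false

open Pointwise

namespace Pool.Agent.H11.FB

variable {G : Type*} [Group G]

open Classical in
/-- the characteristic function -/
noncomputable def ind (V : Set G) (x : G) : ℤ := if x ∈ V then 1 else 0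

/-- the members of `𝒰` which separate `x` from `y` -/
def sep (𝒰 : Set (Set G)) (x y : G) : Set (Set G) := {V | V ∈ 𝒰 ∧ ¬(x ∈ V ↔ y ∈ V)}

/-- any two elements are separated by finitely many members -/
def LocFin (𝒰 : Set (Set G)) : Prop := ∀ x y : G, (sep 𝒰 x y).Finite

/-- the algebraic number of members of `𝒰` entered on the way from `x` to `y` -/
noncomputable def cross (𝒰 : Set (Set G)) (x y : G) : ℤ := ∑ᶠ V : 𝒰, (ind V.1 y - ind V.1 x)

theorem ind_sub_ne_zero {V : Set G} {x y : G} (h : ind V y - ind V x ≠ 0) :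
    ¬(x ∈ V ↔ y ∈ V) := by
  intro h1
  apply h
  unfold ind
  by_cases hx : x ∈ V
  · simp [hx, h1.1 hx]
  · have : y ∉ V := fun hy => hx (h1.2 hy)
    simp [hx, this]

theorem abs_ind_sub_le (V : Set G) (x y : G) : |ind V y - ind V x| ≤ 1 := by
  unfold ind
  split_ifs <;> simp

theorem support_finite {𝒰 : Set (Set G)} (h : LocFin 𝒰) (x y : G) :
    (Function.support fun V : 𝒰 => ind V.1 y - ind V.1 x).Finite := by
  have h1 : Set.Finite ((fun V : 𝒰 => V.1) ⁻¹' sep 𝒰 x y) :=
    (h x y).preimage (Subtype.val_injective.injOn)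
  refine h1.subset fun V hV => ?_
  exact ⟨V.2, ind_sub_ne_zero hV⟩

theorem cross_add {𝒰 : Set (Set G)} (h : LocFin 𝒰) (x y z : G) :
    cross 𝒰 x z = cross 𝒰 x y + cross 𝒰 y z := by
  unfold cross
  rw [← finsum_add_distrib (support_finite h x y) (support_finite h y z)]
  congr 1
  ext V
  ring

theorem cross_self (𝒰 : Set (Set G)) (x : G) : cross 𝒰 x x = 0 := by
  unfold cross
  simp

theorem ind_smul (k : G) (V : Set G) (x : G) : ind (k • V) (k * x) = ind V x := by
  have h : (k * x ∈ k • V) ↔ x ∈ V := by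
    rw [← smul_eq_mul, Set.smul_mem_smul_set_iff]
  unfold ind
  by_cases hx : x ∈ V
  · rw [if_pos hx, if_pos (h.2 hx)]
  · rw [if_neg hx, if_neg (mt h.1 hx)]

theorem cross_smul {𝒰 : Set (Set G)} {k : G} (hk : ∀ V, V ∈ 𝒰 ↔ k • V ∈ 𝒰) (x y : G) :
    cross 𝒰 (k * x) (k * y) = cross 𝒰 x y := by
  unfold cross
  let e : 𝒰 ≃ 𝒰 :=
    { toFun := fun V => ⟨k • V.1, (hk V.1).1 V.2⟩
      invFun := fun V => ⟨k⁻¹ • V.1, (hk _).2 (by rw [smul_inv_smul]; exact V.2)⟩
      left_inv := fun V => Subtype.ext (inv_smul_smul k V.1)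
      right_inv := fun V => Subtype.ext (smul_inv_smul k V.1) }
  rw [← finsum_comp_equiv e]
  congr 1
  ext V
  change ind (k • V.1) (k * y) - ind (k • V.1) (k * x) = _
  rw [ind_smul, ind_smul]

theorem abs_cross_le {𝒰 : Set (Set G)} (h : LocFin 𝒰) (x y : G) :
    |cross 𝒰 x y| ≤ (sep 𝒰 x y).ncard := by
  classical
  unfold cross
  rw [finsum_eq_sum_of_support_subset (s := (support_finite h x y).toFinset) _ (by simp)]
  refine (Finset.abs_sum_le_sum_abs _ _).trans ?_
  refine (Finset.sum_le_sum fun V _ => abs_ind_sub_le V.1 x y).trans ?_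
  rw [Finset.sum_const, nsmul_eq_mul, mul_one]
  have h1 : ((support_finite h x y).toFinset.image fun V : 𝒰 => V.1).card =
      (support_finite h x y).toFinset.card :=
    Finset.card_image_of_injective _ Subtype.val_injective
  rw [← h1, ← Set.ncard_coe_finset]
  have h2 : (((support_finite h x y).toFinset.image fun V : 𝒰 => V.1 : Finset (Set G)) :
      Set (Set G)) ⊆ sep 𝒰 x y := by
    intro V hV
    simp only [Finset.coe_image, Set.Finite.coe_toFinset, Set.mem_image] at hV
    obtain ⟨W, hW, rfl⟩ := hV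
    exact ⟨W.2, ind_sub_ne_zero hW⟩
  exact_mod_cast Set.ncard_le_ncard h2 (h x y)

/-- the translates of `U` under a subgroup -/
def translates (H : Subgroup G) (U : Set G) : Set (Set G) := {V | ∃ k ∈ H, V = k • U}

theorem translates_smul {H : Subgroup G} {U : Set G} {k : G} (hk : k ∈ H) (V : Set G) :
    V ∈ translates H U ↔ k • V ∈ translates H U := by
  constructor
  · rintro ⟨l, hl, rfl⟩
    exact ⟨k * l, H.mul_mem hk hl, by rw [mul_smul]⟩
  · rintro ⟨l, hl, h⟩
    refine ⟨k⁻¹ * l, H.mul_mem (H.inv_mem hk) hl, ?_⟩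
    rw [mul_smul, ← h, inv_smul_smul]

theorem zpow_smul_injective {U : Set G} {a : G} {n : ℕ} (h1 : ∀ i : ℤ, (n : ℤ) ≤ i → a ^ i ∈ U)
    (h2 : ∀ i : ℤ, (n : ℤ) ≤ i → a ^ (-i) ∉ U) : Function.Injective fun j : ℤ => a ^ j • U := by
  have key : ∀ k : ℤ, 0 < k → a ^ k • U = U → False := by
    intro k hk h
    have h3 : ∀ l : ℕ, a ^ ((n : ℤ) - l * k) ∈ U := by
      intro l
      induction l with
      | zero => simpa using h1 n le_rfl
      | succ l ih =>
        have h4 : a ^ ((n : ℤ) - l * k) ∈ a ^ k • U := by rw [h]; exact ih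
        rw [Set.mem_smul_set_iff_inv_smul_mem, smul_eq_mul, ← zpow_neg, ← zpow_add] at h4
        convert h4 using 2
        push_cast
        ring
    have h5 := h2 ((2 * n) * k - n) (by nlinarith [Int.natCast_nonneg n])
    apply h5
    convert h3 (2 * n) using 2
    push_cast
    ring
  intro i j hij
  change a ^ i • U = a ^ j • U at hij
  rcases lt_trichotomy i j with h | h | h
  · refine (key (j - i) (by omega) ?_).elim
    rw [show j - i = -i + j by ring, zpow_add, mul_smul, ← hij, zpow_neg, inv_smul_smul]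
  · exact h
  · refine (key (i - j) (by omega) ?_).elim
    rw [show i - j = -j + i by ring, zpow_add, mul_smul, hij, zpow_neg, inv_smul_smul]

/-- a translate which is crossed once by the axis of `a`, while all other translates are not
crossed -/
theorem cross_eq_one {H : Subgroup G} {U : Set G} {a : G} (ha : a ∈ H)
    {n : ℕ} (h1 : ∀ i : ℤ, (n : ℤ) ≤ i → a ^ i ∈ U) (h2 : ∀ i : ℤ, (n : ℤ) ≤ i → a ^ (-i) ∉ U)
    (h3 : ∀ V ∈ sep (translates H U) 1 a, ∃ j : ℤ, V = a ^ j • U) :
    cross (translates H U) 1 a = 1 := by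
  classical
  have hinj := zpow_smul_injective h1 h2
  let φ : ℕ → translates H U := fun k =>
    ⟨a ^ ((k : ℤ) - n) • U, a ^ ((k : ℤ) - n), H.zpow_mem ha _, rfl⟩
  have hφ : Function.Injective φ := by
    intro k l hkl
    have h4 : a ^ ((k : ℤ) - n) • U = a ^ ((l : ℤ) - n) • U := congrArg Subtype.val hkl
    have h5 := hinj h4
    omega
  have hterm : ∀ j : ℤ, ind (a ^ j • U) a - ind (a ^ j • U) 1 =
      ind U (a ^ (1 - j)) - ind U (a ^ (-j)) := by
    intro j
    have e1 : a = a ^ j * a ^ (1 - j) := by rw [← zpow_add, add_sub_cancel, zpow_one]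
    have e2 : (1 : G) = a ^ j * a ^ (-j) := by rw [← zpow_add, add_neg_cancel, zpow_zero]
    have e3 : ind (a ^ j • U) a = ind U (a ^ (1 - j)) := by
      conv_lhs => rw [e1]
      rw [← ind_smul (a ^ j) U]
      congr 1
      rw [← e1]
    have e4 : ind (a ^ j • U) 1 = ind U (a ^ (-j)) := by
      conv_lhs => rw [e2]
      rw [ind_smul]
    rw [e3, e4]
  have hpos : ∀ i : ℤ, (n : ℤ) ≤ i → ind U (a ^ i) = 1 := fun i hi => if_pos (h1 i hi)
  have hneg : ∀ i : ℤ, i ≤ -(n : ℤ) → ind U (a ^ i) = 0 := fun i hi => if_neg (by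
    have := h2 (-i) (by omega)
    rwa [neg_neg] at this)
  unfold cross
  rw [finsum_eq_sum_of_support_subset (s := (Finset.range (2 * n + 1)).image φ)]
  · rw [Finset.sum_image fun k _ l _ h => hφ h]
    have h4 : ∀ k ∈ Finset.range (2 * n + 1), ind (φ k).1 a - ind (φ k).1 1 =
        ind U (a ^ ((n : ℤ) + 1 - k)) - ind U (a ^ ((n : ℤ) + 1 - (k + 1 : ℕ))) := by
      intro k _
      change ind (a ^ ((k : ℤ) - n) • U) a - ind (a ^ ((k : ℤ) - n) • U) 1 = _
      rw [hterm, show (1 : ℤ) - ((k : ℤ) - n) = (n : ℤ) + 1 - k by ring,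
        show -((k : ℤ) - n) = (n : ℤ) + 1 - ((k + 1 : ℕ) : ℤ) by push_cast; ring]
    rw [Finset.sum_congr rfl h4,
      Finset.sum_range_sub' (fun k : ℕ => ind U (a ^ ((n : ℤ) + 1 - k)))]
    rw [hpos _ (by push_cast; omega), hneg _ (by push_cast; omega)]
    norm_num
  · intro V hV
    obtain ⟨j, hj⟩ := h3 V.1 ⟨V.2, ind_sub_ne_zero hV⟩
    have h4 : ind (a ^ j • U) a - ind (a ^ j • U) 1 ≠ 0 := by
      have : ind V.1 a - ind V.1 1 ≠ 0 := hV
      rwa [hj] at this
    rw [hterm] at h4
    have h5 : -(n : ℤ) ≤ j := by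
      by_contra hlt
      apply h4
      rw [hpos _ (by omega), hpos _ (by omega)]
      norm_num
    have h6 : j ≤ n := by
      by_contra hlt
      apply h4
      rw [hneg _ (by omega), hneg _ (by omega)]
      norm_num
    simp only [Finset.coe_image, Set.mem_image, Finset.coe_range, Set.mem_Iio]
    refine ⟨(j + n).toNat, by omega, ?_⟩
    apply Subtype.ext
    rw [hj]
    change a ^ (((j + n).toNat : ℤ) - n) • U = _
    rw [Int.toNat_of_nonneg (by omega)]
    congr 2
    ring

/-- the crossing homomorphism of a subgroup -/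
noncomputable def crossHom (H : Subgroup G) (U : Set G) (h : LocFin (translates H U)) :
    H →* Multiplicative ℤ where
  toFun k := Multiplicative.ofAdd (cross (translates H U) 1 k)
  map_one' := by
    change Multiplicative.ofAdd (cross _ 1 ((1 : H) : G)) = 1
    rw [Subgroup.coe_one, cross_self]
    rfl
  map_mul' k l := by
    rw [← ofAdd_add, Subgroup.coe_mul, cross_add h 1 k (k * l)]
    congr 2
    have h1 := cross_smul (𝒰 := translates H U) (k := (k : G)) (translates_smul k.2) 1 (l : G)
    rwa [mul_one] at h1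

end Pool.Agent.H11.FB
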