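import Pool.Agent.H11.FB.Cross

/-!
# A homomorphism which is one on `g ^ m` and small on a family of lines

MP_fc7159_al, step A.
-/

set_option autoImplicit false
set_option linter.unusedSectionVars false

open Pointwise

namespace Pool.Agent.H11.FB

variable {G : Type*} [Group G]

/-- closed in the profinite topology -/
def Separable (T : Set G) : Prop :=
  ∀ b, b ∉ T → ∃ N : Subgroup G, N.Normal ∧ N.FiniteIndex ∧ ∀ n ∈ N, b * n ∉ T

theorem Separable.finset {T : Set G} (h : Separable T) (E : Finset G) :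
    ∃ N : Subgroup G, N.Normal ∧ N.FiniteIndex ∧ ∀ b ∈ E, b ∉ T → ∀ n ∈ N, b * n ∉ T := by
  classical
  induction E using Finset.induction_on with
  | empty => exact ⟨⊤, inferInstance, inferInstance, by simp⟩
  | insert b E _ ih =>
    obtain ⟨N, hN, hN', h1⟩ := ih
    by_cases hb : b ∈ T
    · refine ⟨N, hN, hN', ?_⟩
      intro c hc hcT
      rcases Finset.mem_insert.1 hc with rfl | hc
      · exact absurd hb hcT
      · exact h1 c hc hcT
    · obtain ⟨N', hM, hM', h2⟩ := h b hb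
      refine ⟨N ⊓ N', inferInstance, inferInstance, ?_⟩
      intro c hc hcT n hn
      rcases Finset.mem_insert.1 hc with rfl | hc
      · exact h2 n hn.2
      · exact h1 c hc hcT n hn.1

theorem exists_step (V : Set G) (γ : ℕ → G) (T : ℕ) (h : ¬(γ 0 ∈ V ↔ γ T ∈ V)) :
    ∃ i < T, ¬(γ i ∈ V ↔ γ (i + 1) ∈ V) := by
  induction T with
  | zero => exact absurd Iff.rfl h
  | succ T ih =>
    by_cases h1 : γ 0 ∈ V ↔ γ T ∈ V
    · exact ⟨T, Nat.lt_succ_self T, fun h2 => h (h1.trans h2)⟩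
    · obtain ⟨i, hi, h2⟩ := ih h1
      exact ⟨i, hi.trans (Nat.lt_succ_self T), h2⟩

/-- the elements of a finite set of products of at most `R` letters -/
theorem steps_mem {A : Finset G} [DecidableEq G] {γ : ℤ → G}
    (hγ : ∀ k, (γ k)⁻¹ * γ (k + 1) ∈ A) (k : ℤ) (d : ℕ) : (γ k)⁻¹ * γ (k + d) ∈ A ^ d := by
  induction d with
  | zero => simp
  | succ d ih =>
    have h1 : (γ k)⁻¹ * γ (k + (d + 1 : ℕ)) =
        ((γ k)⁻¹ * γ (k + d)) * ((γ (k + d))⁻¹ * γ (k + d + 1)) := by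
      rw [show k + ((d + 1 : ℕ) : ℤ) = k + d + 1 by push_cast; ring]
      group
    rw [h1, pow_succ]
    exact Finset.mul_mem_mul ih (hγ _)

/-- Data of a wall which is crossed by the axis of `g`, and of a family of lines. -/
structure WallLines (G : Type*) [Group G] where
  /-- the stabiliser of the wall -/
  S : Subgroup G
  /-- a half space -/
  U : Set G
  /-- steps -/
  A : Finset G
  /-- the width of the wall for these steps -/
  B : Finset G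
  /-- the lines -/
  L : Set (ℤ → G)
  /-- an element -/
  g : G
  /-- the half space is invariant -/
  smul_U : ∀ s ∈ S, s • U = U
  /-- a step which crosses the wall starts near it -/
  near : ∀ a ∈ A, ∀ x : G, ¬(x ∈ U ↔ x * a ∈ U) → ∃ s ∈ S, ∃ b ∈ B, x = s * b
  /-- the same for an arbitrary element in place of a step -/
  near_all : ∀ a : G, ∃ B' : Finset G, ∀ x : G, ¬(x ∈ U ↔ x * a ∈ U) →
    ∃ s ∈ S, ∃ b ∈ B', x = s * b
  /-- the family of lines is invariant -/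
  smul_L : ∀ γ ∈ L, ∀ x : G, (fun k => x * γ k) ∈ L
  /-- the steps of the lines -/
  step_L : ∀ γ ∈ L, ∀ k, (γ k)⁻¹ * γ (k + 1) ∈ A
  /-- `g` is a step -/
  g_mem : g ∈ A

namespace WallLines

variable (W : WallLines G)

theorem locFin (H : Subgroup G) : LocFin (translates H W.U) := by
  classical
  intro x y
  obtain ⟨B', hB'⟩ := W.near_all (x⁻¹ * y)
  refine (B'.finite_toSet.image fun b => (x * b⁻¹) • W.U).subset ?_
  rintro V ⟨⟨k, -, rfl⟩, h⟩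
  have h1 : ¬(k⁻¹ * x ∈ W.U ↔ k⁻¹ * x * (x⁻¹ * y) ∈ W.U) := by
    rw [Set.mem_smul_set_iff_inv_smul_mem, Set.mem_smul_set_iff_inv_smul_mem, smul_eq_mul,
      smul_eq_mul] at h
    rwa [show k⁻¹ * x * (x⁻¹ * y) = k⁻¹ * y by group]
  obtain ⟨s, hs, b, hb, h2⟩ := hB' _ h1
  refine ⟨b, hb, ?_⟩
  have h3 : x * b⁻¹ = k * s := by
    have : x = k * (s * b) := by rw [← h2]; group
    rw [this]; group
  change (x * b⁻¹) • W.U = _
  rw [h3, mul_smul, W.smul_U s hs]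

/-- the condition that no line meets two different translates of the wall under `⟨g ^ m⟩` -/
def Star (m : ℕ) : Prop :=
  ∀ γ ∈ W.L, ∀ i j l : ℤ, (∃ s ∈ W.S, ∃ b ∈ W.B, γ i = s * b) →
    (∃ s ∈ W.S, ∃ b ∈ W.B, γ j = (W.g ^ m) ^ l * (s * b)) → l = 0

/-- the double coset `S ⟨g ^ m⟩ S` -/
def SgS (m : ℕ) : Set G := {x | ∃ s ∈ W.S, ∃ l : ℤ, ∃ s' ∈ W.S, x = s * (W.g ^ m) ^ l * s'}

/-- the product `⟨g ^ m⟩ S` -/
def gS (m : ℕ) : Set G := {x | ∃ l : ℤ, ∃ s' ∈ W.S, x = (W.g ^ m) ^ l * s'}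

theorem near_smul {H : Subgroup G} {V : Set G} (hV : V ∈ translates H W.U) {x a : G}
    (ha : a ∈ W.A) (h : ¬(x ∈ V ↔ x * a ∈ V)) :
    ∃ k ∈ H, V = k • W.U ∧ ∃ s ∈ W.S, ∃ b ∈ W.B, x = k * (s * b) := by
  obtain ⟨k, hk, rfl⟩ := hV
  refine ⟨k, hk, rfl, ?_⟩
  have h1 : ¬(k⁻¹ * x ∈ W.U ↔ k⁻¹ * x * a ∈ W.U) := by
    rw [Set.mem_smul_set_iff_inv_smul_mem, Set.mem_smul_set_iff_inv_smul_mem, smul_eq_mul,
      smul_eq_mul] at h
    rwa [mul_assoc]
  obtain ⟨s, hs, b, hb, h2⟩ := W.near a ha _ h1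
  exact ⟨s, hs, b, hb, by rw [← h2]; group⟩

/-- the elements of `⟨a⟩ N` -/
theorem mem_sup {N : Subgroup G} (hN : N.Normal) {a x : G} (hx : x ∈ Subgroup.zpowers a ⊔ N) :
    ∃ l : ℤ, ∃ n ∈ N, x = a ^ l * n := by
  rw [Subgroup.mem_sup_of_normal_right] at hx
  obtain ⟨y, hy, n, hn, rfl⟩ := hx
  obtain ⟨l, rfl⟩ := Subgroup.mem_zpowers_iff.1 hy
  exact ⟨l, n, hn, rfl⟩

/-- the finite set of the differences of near points -/
theorem exists_bridge_set (R : ℕ) : ∃ E : Finset G, ∀ γ ∈ W.L, ∀ k : ℤ, ∀ d : ℕ, d ≤ R →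
    ∀ b ∈ W.B, ∀ b' ∈ W.B, b * ((γ k)⁻¹ * γ (k + d)) * b'⁻¹ ∈ E := by
  classical
  refine ⟨(W.B * (Finset.range (R + 1)).biUnion fun d => W.A ^ d) * W.B⁻¹, ?_⟩
  intro γ hγ k d hd b hb b' hb'
  refine Finset.mul_mem_mul (Finset.mul_mem_mul hb ?_) (Finset.inv_mem_inv hb')
  rw [Finset.mem_biUnion]
  exact ⟨d, Finset.mem_range.2 (Nat.lt_succ_of_le hd), steps_mem (W.step_L γ hγ) k d⟩

/-- two translates of the half space under `H` which are met by a line at close times are equal -/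
theorem eq_of_close {m R : ℕ} (hstar : W.Star m) {E : Finset G}
    (hE : ∀ γ ∈ W.L, ∀ k : ℤ, ∀ d : ℕ, d ≤ R →
      ∀ b ∈ W.B, ∀ b' ∈ W.B, b * ((γ k)⁻¹ * γ (k + d)) * b'⁻¹ ∈ E)
    {N : Subgroup G} (hN : N.Normal)
    (hNE : ∀ b ∈ E, b ∉ W.SgS m → ∀ n ∈ N, b * n ∉ W.SgS m)
    {γ : ℤ → G} (hγ : γ ∈ W.L) {k k' : G} (hk : k ∈ Subgroup.zpowers (W.g ^ m) ⊔ N)
    (hk' : k' ∈ Subgroup.zpowers (W.g ^ m) ⊔ N) {i : ℤ} {d : ℕ} (hd : d ≤ R)
    (h1 : ∃ s ∈ W.S, ∃ b ∈ W.B, γ i = k * (s * b))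
    (h2 : ∃ s ∈ W.S, ∃ b ∈ W.B, γ (i + d) = k' * (s * b)) : k • W.U = k' • W.U := by
  obtain ⟨s₁, hs₁, b₁, hb₁, e1⟩ := h1
  obtain ⟨s₂, hs₂, b₂, hb₂, e2⟩ := h2
  have hkk : k⁻¹ * k' ∈ Subgroup.zpowers (W.g ^ m) ⊔ N :=
    Subgroup.mul_mem _ (Subgroup.inv_mem _ hk) hk'
  obtain ⟨l, n, hn, e3⟩ := mem_sup hN hkk
  set e : G := b₁ * ((γ i)⁻¹ * γ (i + d)) * b₂⁻¹ with he
  have heE : e ∈ E := hE γ hγ i d hd b₁ hb₁ b₂ hb₂
  have e4 : k⁻¹ * k' = s₁ * e * s₂⁻¹ := by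
    rw [he, e1, e2]
    group
  have heT : e ∈ W.SgS m := by
    by_contra hcon
    refine hNE e heE hcon (s₂⁻¹ * n⁻¹ * s₂) ?_ ?_
    · have := hN.conj_mem n⁻¹ (N.inv_mem hn) s₂⁻¹
      rwa [inv_inv] at this
    · refine ⟨s₁⁻¹, W.S.inv_mem hs₁, l, s₂, hs₂, ?_⟩
      have e5 : e = s₁⁻¹ * (k⁻¹ * k') * s₂ := by rw [e4]; group
      rw [e5, e3]
      group
  obtain ⟨s, hs, j, s', hs', e6⟩ := heT
  have hj : j = 0 := by
    refine hstar _ (W.smul_L γ hγ (k * s₁ * s)⁻¹) i (i + d) j ?_ ?_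
    · refine ⟨s⁻¹, W.S.inv_mem hs, b₁, hb₁, ?_⟩
      rw [e1]
      group
    · refine ⟨s', hs', b₂, hb₂, ?_⟩
      have e7 : γ (i + d) = k * (k⁻¹ * k') * (s₂ * b₂) := by rw [e2]; group
      rw [e7, e4, e6]
      group
  have e8 : k' = k * (s₁ * (s * s') * s₂⁻¹) := by
    have : k' = k * (k⁻¹ * k') := by group
    rw [this, e4, e6, hj, zpow_zero]
    group
  have e9 : (s₁ * (s * s') * s₂⁻¹) • W.U = W.U :=
    W.smul_U _ (W.S.mul_mem (W.S.mul_mem hs₁ (W.S.mul_mem hs hs')) (W.S.inv_mem hs₂))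
  rw [e8, mul_smul, e9]

/-- the number of the separating translates along a line -/
theorem card_le {m R : ℕ} (hR : 0 < R) (hstar : W.Star m) {E : Finset G}
    (hE : ∀ γ ∈ W.L, ∀ k : ℤ, ∀ d : ℕ, d ≤ R →
      ∀ b ∈ W.B, ∀ b' ∈ W.B, b * ((γ k)⁻¹ * γ (k + d)) * b'⁻¹ ∈ E)
    {N : Subgroup G} (hN : N.Normal)
    (hNE : ∀ b ∈ E, b ∉ W.SgS m → ∀ n ∈ N, b * n ∉ W.SgS m)
    {γ : ℤ → G} (hγ : γ ∈ W.L) (T : ℕ) :
    (sep (translates (Subgroup.zpowers (W.g ^ m) ⊔ N) W.U) (γ 0) (γ T)).ncard ≤ T / R + 1 := by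
  classical
  set H := Subgroup.zpowers (W.g ^ m) ⊔ N with hH
  have h1 : ∀ V ∈ sep (translates H W.U) (γ 0) (γ T), ∃ i : ℕ, i < T ∧ ∃ k ∈ H, V = k • W.U ∧
      ∃ s ∈ W.S, ∃ b ∈ W.B, γ i = k * (s * b) := by
    rintro V ⟨hV, h⟩
    obtain ⟨i, hi, h2⟩ := exists_step V (fun n : ℕ => γ n) T (by simpa using h)
    have h3 : ¬(γ (i : ℤ) ∈ V ↔ γ (i : ℤ) * ((γ i)⁻¹ * γ (i + 1)) ∈ V) := by
      rw [mul_inv_cancel_left]
      simpa using h2
    obtain ⟨k, hk, e, h4⟩ := W.near_smul hV (W.step_L γ hγ i) h3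
    exact ⟨i, hi, k, hk, e, h4⟩
  choose! t ht using h1
  have h2 : Set.MapsTo (fun V => t V / R) (sep (translates H W.U) (γ 0) (γ T))
      (Finset.range (T / R + 1) : Finset ℕ) := by
    intro V hV
    have := (ht V hV).1
    simp only [Finset.coe_range, Set.mem_Iio]
    exact Nat.lt_succ_of_le (Nat.div_le_div_right this.le)
  have h3 : Set.InjOn (fun V => t V / R) (sep (translates H W.U) (γ 0) (γ T)) := by
    have key : ∀ V ∈ sep (translates H W.U) (γ 0) (γ T), ∀ V' ∈ sep (translates H W.U) (γ 0) (γ T),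
        t V / R = t V' / R → t V ≤ t V' → V = V' := by
      intro V hV V' hV' h4 h5
      obtain ⟨-, k, hk, e, h6⟩ := ht V hV
      obtain ⟨-, k', hk', e', h7⟩ := ht V' hV'
      rw [e, e']
      have h8 : t V' - t V ≤ R := by
        have a1 := Nat.div_add_mod (t V) R
        have a2 := Nat.div_add_mod (t V') R
        have a3 := Nat.mod_lt (t V') hR
        rw [h4] at a1
        omega
      refine W.eq_of_close hstar hE hN hNE hγ hk hk' (i := t V) (d := t V' - t V) h8 h6 ?_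
      rwa [show ((t V : ℕ) : ℤ) + ((t V' - t V : ℕ) : ℤ) = (t V' : ℤ) by omega]
    intro V hV V' hV' h4
    rcases le_total (t V) (t V') with h | h
    · exact key V hV V' hV' h4 h
    · exact (key V' hV' V hV h4.symm h).symm
  have h4 := Set.ncard_le_ncard_of_injOn _ h2 h3 (Finset.finite_toSet _)
  rwa [Set.ncard_coe_finset, Finset.card_range] at h4

theorem sep_axis {m : ℕ} {N : Subgroup G} (hN : N.Normal)
    (hNE : ∀ i < m, ∀ b ∈ W.B, W.g ^ i * b⁻¹ ∉ W.gS m →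
      ∀ n ∈ N, W.g ^ i * b⁻¹ * n ∉ W.gS m)
    {V : Set G} (hV : V ∈ sep (translates (Subgroup.zpowers (W.g ^ m) ⊔ N) W.U) 1 (W.g ^ m)) :
    ∃ j : ℤ, V = (W.g ^ m) ^ j • W.U := by
  obtain ⟨hV, h⟩ := hV
  obtain ⟨i, hi, h2⟩ := exists_step V (fun n : ℕ => W.g ^ n) m (by simpa using h)
  have h3 : ¬(W.g ^ i ∈ V ↔ W.g ^ i * W.g ∈ V) := by
    rw [← pow_succ]
    exact h2
  obtain ⟨k, hk, e, s, hs, b, hb, h4⟩ := W.near_smul hV W.g_mem h3
  obtain ⟨l, n, hn, e1⟩ := mem_sup hN hk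
  have h5 : W.g ^ i * b⁻¹ ∈ W.gS m := by
    by_contra hcon
    refine hNE i hi b hb hcon (s⁻¹ * n⁻¹ * s) ?_ ?_
    · have := hN.conj_mem n⁻¹ (N.inv_mem hn) s⁻¹
      rwa [inv_inv] at this
    · refine ⟨l, s, hs, ?_⟩
      rw [h4, e1]
      group
  obtain ⟨j, s', hs', e2⟩ := h5
  refine ⟨j, ?_⟩
  have e3 : k = (W.g ^ m) ^ j * (s' * s⁻¹) := by
    have : k = W.g ^ i * b⁻¹ * s⁻¹ := by rw [h4]; group
    rw [this, e2]
    group
  rw [e, e3, mul_smul, W.smul_U _ (W.S.mul_mem hs' (W.S.inv_mem hs))]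

/-- the estimate for a homomorphism, from the estimate for the number of separating translates -/
theorem bound {R : ℕ} (H : Subgroup G)
    (hcard : ∀ γ ∈ W.L, ∀ T : ℕ, (sep (translates H W.U) (γ 0) (γ T)).ncard ≤ T / R + 1)
    (p : H) {γ : ℤ → G} {u : ℕ} (hγ : γ ∈ W.L) (hp : ∀ k : ℤ, γ (k + u) = (p : G)⁻¹ * γ k) :
    (R : ℤ) * |(crossHom H W.U (W.locFin H) p).toAdd| ≤ u := by
  have hloc := W.locFin H
  -- the value on powers
  have hpow : ∀ l : ℕ, γ ((l * u : ℕ) : ℤ) = ((p : G)⁻¹) ^ l * γ 0 := by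
    intro l
    induction l with
    | zero => simp
    | succ l ih =>
      rw [show (((l + 1) * u : ℕ) : ℤ) = ((l * u : ℕ) : ℤ) + u by push_cast; ring, hp, ih,
        pow_succ', mul_assoc]
  have hcross : ∀ l : ℕ, cross (translates H W.U) (γ 0) (γ ((l * u : ℕ) : ℤ)) =
      -(l * ((crossHom H W.U hloc p).toAdd)) := by
    intro l
    have hq : ∀ q : H, cross (translates H W.U) (γ 0) (q * γ 0) =
        (crossHom H W.U hloc q).toAdd := by
      intro q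
      have a1 := cross_add hloc (γ 0) 1 (q * γ 0)
      have a2 := cross_add hloc 1 (q : G) (q * γ 0)
      have a3 := cross_smul (𝒰 := translates H W.U) (k := (q : G)) (translates_smul q.2) 1 (γ 0)
      have a4 := cross_add hloc 1 (γ 0) 1
      rw [cross_self] at a4
      rw [mul_one] at a3
      change _ = cross (translates H W.U) 1 (q : G)
      rw [a1, a2, a3]
      linarith
    have a5 := hq ((p⁻¹) ^ l)
    rw [Subgroup.coe_pow, Subgroup.coe_inv, ← hpow l, map_pow, map_inv] at a5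
    rw [a5, toAdd_pow, toAdd_inv]
    simp
  have hbound : ∀ l : ℕ, (R : ℤ) * (l * |(crossHom H W.U hloc p).toAdd|) ≤ l * u + R := by
    intro l
    have a1 := abs_cross_le hloc (γ 0) (γ ((l * u : ℕ) : ℤ))
    have a2 := hcard γ hγ (l * u)
    rw [hcross l, abs_neg, abs_mul, Nat.abs_cast] at a1
    have a3 : ((sep (translates H W.U) (γ 0) (γ ((l * u : ℕ) : ℤ))).ncard : ℤ) ≤
        ((l * u / R + 1 : ℕ) : ℤ) := by exact_mod_cast a2
    have a4 : (R : ℤ) * ((l * u / R : ℕ) : ℤ) ≤ l * u := by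
      exact_mod_cast Nat.mul_div_le (l * u) R
    have a5 := a1.trans a3
    push_cast at a5 a4 ⊢
    nlinarith [Int.natCast_nonneg R]
  by_contra hcon
  push Not at hcon
  have h5 := hbound (R + 1)
  push_cast at h5
  nlinarith [Int.natCast_nonneg R, Int.natCast_nonneg u]

/-- Let the axis of `g` cross the wall, and suppose that no line meets two different translates of
the wall under `⟨g ^ m⟩`. If `S ⟨g ^ m⟩ S` and `⟨g ^ m⟩ S` are closed in the profinite topology, then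
for every `R` there is a homomorphism `η` from a subgroup `H` of finite index which contains `g ^ m`
to the integers with `η (g ^ m) = 1` and `|η p| ≤ u / R` if `p⁻¹` shifts a line by `u`. -/
theorem exists_eta {n : ℕ} (h1 : ∀ i : ℤ, (n : ℤ) ≤ i → W.g ^ i ∈ W.U)
    (h2 : ∀ i : ℤ, (n : ℤ) ≤ i → W.g ^ (-i) ∉ W.U) {m : ℕ} (hm : 0 < m) (hstar : W.Star m)
    (hsep : Separable (W.SgS m)) (hsep' : Separable (W.gS m)) {R : ℕ} (hR : 0 < R) :
    ∃ (H : Subgroup G) (η : H →* Multiplicative ℤ) (hg : W.g ^ m ∈ H), H.FiniteIndex ∧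
      (η ⟨W.g ^ m, hg⟩).toAdd = 1 ∧
      ∀ (p : H) (γ : ℤ → G) (u : ℕ), γ ∈ W.L → (∀ k : ℤ, γ (k + u) = (p : G)⁻¹ * γ k) →
        (R : ℤ) * |(η p).toAdd| ≤ u := by
  classical
  obtain ⟨E, hE⟩ := W.exists_bridge_set R
  obtain ⟨N₁, hN₁, hF₁, hNE₁⟩ := hsep.finset E
  obtain ⟨N₂, hN₂, hF₂, hNE₂⟩ := hsep'.finset
    ((Finset.range m).biUnion fun i => W.B.image fun b => W.g ^ i * b⁻¹)
  have hN : (N₁ ⊓ N₂).Normal := inferInstance
  have hF : (N₁ ⊓ N₂).FiniteIndex := inferInstance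
  have hNE : ∀ b ∈ E, b ∉ W.SgS m → ∀ n ∈ N₁ ⊓ N₂, b * n ∉ W.SgS m :=
    fun b hb hb' n hn => hNE₁ b hb hb' n hn.1
  have hNE' : ∀ i < m, ∀ b ∈ W.B, W.g ^ i * b⁻¹ ∉ W.gS m →
      ∀ n ∈ N₁ ⊓ N₂, W.g ^ i * b⁻¹ * n ∉ W.gS m := by
    intro i hi b hb hcon n hn
    refine hNE₂ _ ?_ hcon n hn.2
    rw [Finset.mem_biUnion]
    exact ⟨i, Finset.mem_range.2 hi, Finset.mem_image.2 ⟨b, hb, rfl⟩⟩
  generalize N₁ ⊓ N₂ = N at hN hF hNE hNE'
  have hg : W.g ^ m ∈ Subgroup.zpowers (W.g ^ m) ⊔ N :=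
    Subgroup.mem_sup_left (Subgroup.mem_zpowers _)
  refine ⟨Subgroup.zpowers (W.g ^ m) ⊔ N, crossHom _ W.U (W.locFin _), hg, ?_, ?_, ?_⟩
  · exact Subgroup.finiteIndex_of_le (le_sup_right : N ≤ _)
  · change cross _ 1 (W.g ^ m) = 1
    refine cross_eq_one (n := n) hg ?_ ?_ fun V hV => W.sep_axis hN hNE' hV
    · intro i hi
      rw [← zpow_natCast, ← zpow_mul]
      refine h1 _ ?_
      nlinarith [Int.natCast_nonneg n, (by exact_mod_cast hm : (1 : ℤ) ≤ m)]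
    · intro i hi
      rw [← zpow_natCast, ← zpow_mul, mul_neg]
      refine h2 _ ?_
      nlinarith [Int.natCast_nonneg n, (by exact_mod_cast hm : (1 : ℤ) ≤ m)]
  · intro p γ u hγ hp
    exact W.bound _ (fun γ hγ T => W.card_le hR hstar hE hN hNE hγ T) p hγ hp

end WallLines

end Pool.Agent.H11.FB
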